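import Pool.Agent.Helper79.AA.MSize
import Pool.Agent.Helper79.AA.MBeta
import Pool.Agent.Helper79.AA.Defs
import Pool.Agent.Helper37.GP.Defs

/-!
# UI, leaf U1: growth of the iterates at integers (helper52)
-/

open Polynomial

namespace Pool.Agent.Helper79.UI

open Pool.Agent.Helper79.GX Pool.Agent.Helper79.AA Pool.Agent.Helper37.GP

/-- The two recursions agree. -/
theorem beta_eq_betaF_h52 {ι : Type} [Fintype ι] [DecidableEq ι] (T : ℚ[X])
    (A : Matrix ι ι ℚ[X]) : ∀ j, beta T A j = betaF T A j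
  | 0 => rfl
  | (j + 1) => by
    rw [beta, betaF, beta_eq_betaF_h52 T A j]

/-- A polynomial as a polynomial in the variable `()`. -/
noncomputable def lif_h52 : ℚ[X] →ₐ[ℚ] MvPolynomial Unit ℚ :=
  Polynomial.aeval (MvPolynomial.X ())

theorem spec_lif_h52 (p : ℚ[X]) : spec () (0 : Unit → ℤ) (lif_h52 p) = p := by
  have h : (spec () (0 : Unit → ℤ)).comp lif_h52 = AlgHom.id ℚ ℚ[X] := by
    apply Polynomial.algHom_ext
    rw [AlgHom.comp_apply, lif_h52, Polynomial.aeval_X, spec, MvPolynomial.aeval_X]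
    simp
  exact congrArg (fun f : ℚ[X] →ₐ[ℚ] ℚ[X] => f p) h

/-- Sizes of the iterates at integers. -/
theorem size_h52 {ι : Type} [Fintype ι] [DecidableEq ι] (T : ℚ[X]) (A : Matrix ι ι ℚ[X]) :
    ∃ c : ℕ, ∀ X : ℕ, 2 ≤ X → ∀ x : ℤ, |x| ≤ X → ∀ j a b,
      |(((betaF T A j a b).eval (x : ℚ) : ℚ) : ℝ)| ≤ ((X : ℝ) ^ c) ^ j := by
  obtain ⟨c, hc⟩ := mbeta_size () (lif_h52 T) (A.map lif_h52)
  refine ⟨c, fun X hX x hx j a b => ?_⟩
  have h1 := hc X hX (AA.pt () 0 x) (fun i => by simpa [AA.pt] using hx) j a b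
  rw [← spec_eval] at h1
  have h2 : (mbeta () (lif_h52 T) (A.map lif_h52) j).map (spec () (0 : Unit → ℤ)) =
      betaF T A j := by
    rw [← spec_beta, spec_lif_h52]
    congr 1
    ext1 a b
    rw [Matrix.map_apply, Matrix.map_apply, spec_lif_h52]
  rw [← h2]
  exact h1

/-- The values at integers of a polynomial whose coefficients have the denominator `q`. -/
theorem int_h52 {q : ℕ} {p : ℚ[X]} (h : IntBy q p) (x : ℤ) : ∃ n : ℤ,
    (q : ℚ) * p.eval (x : ℚ) = n := by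
  choose z hz using h
  refine ⟨∑ n ∈ Finset.range (p.natDegree + 1), z n * x ^ n, ?_⟩
  rw [Polynomial.eval_eq_sum_range, Finset.mul_sum]
  push_cast
  refine Finset.sum_congr rfl fun n _ => ?_
  rw [← hz n]
  ring

/-- U1: growth of the iterates at integers. -/
theorem gal_gr {ι : Type} [Fintype ι] [DecidableEq ι] {T : ℤ[X]} (hT : T ≠ 0)
    {A : Matrix ι ι ℚ[X]} {H : ℕ} (hG : Galochkin (T.map (Int.castRingHom ℚ)) A H) :
    ∃ s₀ c : ℕ, ∀ s : ℕ, s₀ ≤ s → ∀ x : ℤ, (s : ℤ) ≤ 2 * x → x ≤ 2 * s →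
      Gr (T.map (Int.castRingHom ℚ)) A (x : ℚ) ((s : ℝ) ^ c) := by
  obtain ⟨c₁, hc₁⟩ := size_h52 (T.map (Int.castRingHom ℚ)) A
  obtain ⟨c₂, hc₂⟩ := eval_size (lif_h52 (T.map (Int.castRingHom ℚ)))
  have hc₂' : ∀ X : ℕ, 2 ≤ X → ∀ x : ℤ, |x| ≤ X → |((T.eval x : ℤ) : ℝ)| ≤ (X : ℝ) ^ c₂ := by
    intro X hX x hx
    have h1 := hc₂ X hX (AA.pt () 0 x) (fun i => by simpa [AA.pt] using hx)
    rw [← spec_eval, spec_lif_h52] at h1
    have h2 : (T.map (Int.castRingHom ℚ)).eval (x : ℚ) = ((T.eval x : ℤ) : ℚ) := by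
      have := Polynomial.eval_map_apply (f := Int.castRingHom ℚ) (p := T) x
      simpa using this
    rw [h2] at h1
    simpa using h1
  -- roots
  obtain ⟨R, hR⟩ : ∃ R : ℕ, ∀ x : ℤ, T.eval x = 0 → x < R := by
    refine ⟨∑ r ∈ T.roots.toFinset, (r.natAbs + 1), fun x hx => ?_⟩
    have h1 : x ∈ T.roots.toFinset := by
      rw [Multiset.mem_toFinset, Polynomial.mem_roots hT]
      exact hx
    have h2 : x.natAbs + 1 ≤ ∑ r ∈ T.roots.toFinset, (r.natAbs + 1) :=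
      Finset.single_le_sum (f := fun r : ℤ => r.natAbs + 1) (fun _ _ => Nat.zero_le _) h1
    omega
  refine ⟨2 * R + 2, 2 * c₁ + 2 * c₂ + H, fun s hs x hx1 hx2 => ?_⟩
  have hs2 : 2 ≤ s := by omega
  have hT0 : T.eval x ≠ 0 := fun h => by
    have := hR x h
    omega
  have hTx : (T.map (Int.castRingHom ℚ)).eval (x : ℚ) = ((T.eval x : ℤ) : ℚ) := by
    have := Polynomial.eval_map_apply (f := Int.castRingHom ℚ) (p := T) x
    simpa using this
  have hX : 2 ≤ 2 * s := by omega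
  have hxX : |x| ≤ ((2 * s : ℕ) : ℤ) := by
    rw [abs_le]
    push_cast
    omega
  have hs1 : (1 : ℝ) ≤ s := by exact_mod_cast (by omega : 1 ≤ s)
  have hs2' : (2 : ℝ) ≤ s := by exact_mod_cast hs2
  have h2s : ((2 * s : ℕ) : ℝ) ≤ (s : ℝ) ^ 2 := by
    push_cast
    nlinarith
  have hpow : ∀ c : ℕ, (((2 * s : ℕ) : ℝ)) ^ c ≤ (s : ℝ) ^ (2 * c) := fun c => by
    rw [pow_mul]
    exact pow_le_pow_left₀ (by positivity) h2s c
  have hHs : (H : ℝ) ≤ (s : ℝ) ^ H := by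
    have h1 : H < 2 ^ H := Nat.lt_two_pow_self
    have h2 : (H : ℝ) ≤ 2 ^ H := by exact_mod_cast h1.le
    exact h2.trans (pow_le_pow_left₀ (by norm_num) hs2' H)
  have hTabs : |((T.eval x : ℤ) : ℝ)| ≤ (s : ℝ) ^ (2 * c₂) := (hc₂' _ hX x hxX).trans (hpow c₂)
  have hT1 : (1 : ℝ) ≤ |((T.eval x : ℤ) : ℝ)| := by
    exact_mod_cast Int.one_le_abs hT0
  refine ⟨(H : ℝ) + 1, fun J => ?_⟩
  obtain ⟨q, hq0, hq, hqn⟩ := hG J
  refine ⟨q * (T.eval x).natAbs ^ J, Nat.mul_pos hq0 (Nat.pow_pos (Int.natAbs_pos.2 hT0)), ?_,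
    fun j hj a b => ⟨?_, ?_⟩⟩
  · have h1 : (q : ℝ) ≤ (H : ℝ) ^ (J + 1) := by exact_mod_cast hq
    have h2 : (((T.eval x).natAbs : ℕ) : ℝ) = |((T.eval x : ℤ) : ℝ)| := by
      rw [Nat.cast_natAbs, Int.cast_abs]
    push_cast
    rw [h2]
    calc (q : ℝ) * |((T.eval x : ℤ) : ℝ)| ^ J
        ≤ (H : ℝ) ^ (J + 1) * ((s : ℝ) ^ (2 * c₂)) ^ J :=
          mul_le_mul h1 (pow_le_pow_left₀ (abs_nonneg _) hTabs _) (by positivity) (by positivity)
      _ = H * ((H : ℝ) * (s : ℝ) ^ (2 * c₂)) ^ J := by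
          rw [mul_pow, pow_succ]
          ring
      _ ≤ (H + 1) * ((s : ℝ) ^ (2 * c₁ + 2 * c₂ + H)) ^ J := by
          apply mul_le_mul (by linarith) _ (by positivity) (by positivity)
          apply pow_le_pow_left₀ (by positivity)
          calc (H : ℝ) * (s : ℝ) ^ (2 * c₂) ≤ (s : ℝ) ^ H * (s : ℝ) ^ (2 * c₂) :=
                mul_le_mul_of_nonneg_right hHs (by positivity)
            _ = (s : ℝ) ^ (H + 2 * c₂) := by rw [pow_add]
            _ ≤ _ := pow_le_pow_right₀ hs1 (by omega)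
  · obtain ⟨n, hn⟩ := int_h52 (hqn j hj a b) x
    rw [beta_eq_betaF_h52] at hn
    refine ⟨n * ((T.eval x).natAbs ^ J / (T.eval x) ^ j), ?_⟩
    have hd : (T.eval x) ^ j ∣ ((T.eval x).natAbs : ℤ) ^ J := by
      have h3 : (T.eval x) ∣ ((T.eval x).natAbs : ℤ) := Int.dvd_natAbs.2 dvd_rfl
      exact (pow_dvd_pow_of_dvd h3 j).trans (pow_dvd_pow _ hj)
    have hTQ : ((T.eval x : ℤ) : ℚ) ^ j ≠ 0 := pow_ne_zero _ (by exact_mod_cast hT0)
    rw [gm, Matrix.of_apply, hTx]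
    rw [Int.cast_mul, Int.cast_div hd (by exact_mod_cast hTQ), ← hn]
    push_cast
    field_simp
    rw [Nat.cast_natAbs, Int.cast_abs, mul_comm]
  · rw [gm, Matrix.of_apply, hTx]
    push_cast
    rw [abs_div, abs_pow]
    have h4 := hc₁ _ hX x hxX j a b
    have h5 : |(((betaF (T.map (Int.castRingHom ℚ)) A j a b).eval (x : ℚ) : ℚ) : ℝ)| /
        |((T.eval x : ℤ) : ℝ)| ^ j ≤
        |(((betaF (T.map (Int.castRingHom ℚ)) A j a b).eval (x : ℚ) : ℚ) : ℝ)| :=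
      div_le_self (abs_nonneg _) (one_le_pow₀ hT1)
    refine h5.trans (h4.trans ?_)
    have h6 : (((2 * s : ℕ) : ℝ) ^ c₁) ^ j ≤ ((s : ℝ) ^ (2 * c₁ + 2 * c₂ + H)) ^ j :=
      pow_le_pow_left₀ (by positivity) ((hpow c₁).trans (pow_le_pow_right₀ hs1 (by omega))) _
    refine h6.trans (le_mul_of_one_le_left (by positivity) ?_)
    have : (0 : ℝ) ≤ H := Nat.cast_nonneg _
    linarith

end Pool.Agent.Helper79.UI
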